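import Mathlib

/-!
# MP_ef9ba3_an: Chebyshev centers and regularization for noisy linear data

We disprove the statement: in the plane, with `P f = (f₁ - 4 f₂, 0)`, `Λ f = (f₁ + f₂ / 2, f₂)`,
`ε = 2`, `η = √5 / 2` and `y = (1, -1/2)`, the Chebyshev center of the consistent set is `(1, 0)`
and it minimises the regularization functional `F_τ` for no `τ ∈ [0, 1]`.
-/

namespace Pool.Agent.Results.MP_ef9ba3_an.RealCounterexample

/-- The set of elements consistent with the data. -/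
def consistentSet {H : Type*} [NormedAddCommGroup H] [InnerProductSpace ℝ H] {m : ℕ}
    (P : H →ₗ[ℝ] H) (Λ : H →ₗ[ℝ] EuclideanSpace ℝ (Fin m)) (ε η : ℝ)
    (y : EuclideanSpace ℝ (Fin m)) : Set H :=
  {f | ‖P f‖ ≤ ε ∧ ‖y - Λ f‖ ≤ η}

/-- `z` minimises the worst-case distance to the points of `K`: it is a Chebyshev center. -/
def IsChebyshevCenter {H : Type*} [NormedAddCommGroup H] (K : Set H) (z : H) : Prop :=
  ∀ w : H, (⨆ f ∈ K, edist f z) ≤ ⨆ f ∈ K, edist f w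

/-- The regularization functional `F_τ`. -/
noncomputable def regFun {H : Type*} [NormedAddCommGroup H] [InnerProductSpace ℝ H] {m : ℕ}
    (P : H →ₗ[ℝ] H) (Λ : H →ₗ[ℝ] EuclideanSpace ℝ (Fin m))
    (y : EuclideanSpace ℝ (Fin m)) (τ : ℝ) (f : H) : ℝ :=
  (1 - τ) * ‖P f‖ ^ 2 + τ * ‖y - Λ f‖ ^ 2

/-- the operator of the counterexample -/
noncomputable def P₀ : EuclideanSpace ℝ (Fin 2) →ₗ[ℝ] EuclideanSpace ℝ (Fin 2) where
  toFun f := !₂[f 0 - 4 * f 1, 0]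
  map_add' f g := by
    ext i; fin_cases i
    · simp; ring
    · simp
  map_smul' c f := by
    ext i; fin_cases i
    · simp; ring
    · simp

/-- the observation map of the counterexample -/
noncomputable def Λ₀ : EuclideanSpace ℝ (Fin 2) →ₗ[ℝ] EuclideanSpace ℝ (Fin 2) where
  toFun f := !₂[f 0 + f 1 / 2, f 1]
  map_add' f g := by
    ext i; fin_cases i
    · simp; ring
    · simp
  map_smul' c f := by
    ext i; fin_cases i
    · simp; ring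
    · simp

/-- the data vector of the counterexample -/
noncomputable def y₀ : EuclideanSpace ℝ (Fin 2) := !₂[1, -1 / 2]

/-- the center -/
noncomputable def z₀ : EuclideanSpace ℝ (Fin 2) := !₂[1, 0]

lemma normP (f : EuclideanSpace ℝ (Fin 2)) : ‖P₀ f‖ ^ 2 = (f 0 - 4 * f 1) ^ 2 := by
  rw [EuclideanSpace.norm_sq_eq]
  simp [P₀, Fin.sum_univ_two]

lemma normΛ (f : EuclideanSpace ℝ (Fin 2)) :
    ‖y₀ - Λ₀ f‖ ^ 2 = (1 - f 0 - f 1 / 2) ^ 2 + (1 / 2 + f 1) ^ 2 := by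
  rw [EuclideanSpace.norm_sq_eq]
  simp [Λ₀, y₀, Fin.sum_univ_two]
  ring

lemma mem_iff (f : EuclideanSpace ℝ (Fin 2)) :
    f ∈ consistentSet P₀ Λ₀ 2 (√5 / 2) y₀ ↔
      (f 0 - 4 * f 1) ^ 2 ≤ 4 ∧ (1 - f 0 - f 1 / 2) ^ 2 + (1 / 2 + f 1) ^ 2 ≤ 5 / 4 := by
  have h5 : (√5 / 2) ^ 2 = (5 / 4 : ℝ) := by
    rw [div_pow, Real.sq_sqrt (by norm_num)]; norm_num
  unfold consistentSet
  simp only [Set.mem_ofPred_eq]
  rw [← normP, ← normΛ, ← h5, show (4 : ℝ) = 2 ^ 2 by norm_num]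
  rw [pow_le_pow_iff_left₀ (norm_nonneg _) (by norm_num) (by norm_num),
    pow_le_pow_iff_left₀ (norm_nonneg _) (by positivity) (by norm_num)]

/-- the key planar inequality -/
lemma key (x t : ℝ) (h1 : (x + 1 - 4 * t) ^ 2 ≤ 4)
    (h2 : (x + t / 2) ^ 2 + (1 / 2 + t) ^ 2 ≤ 5 / 4) : x ^ 2 + t ^ 2 ≤ 1 := by
  have hs : x + 1 - 4 * t ≤ 2 := by nlinarith
  have hq : (x + 1) * (x - 1 + t) + 5 / 4 * t ^ 2 ≤ 0 := by nlinarith
  rcases le_or_gt 0 t with ht | ht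
  · have hx : -1 ≤ x := by
      by_contra hx
      push Not at hx
      nlinarith [sq_nonneg (2 * (-(x + 1)) - (t - 2)), sq_nonneg t, mul_nonneg ht ht]
    nlinarith [mul_nonneg ht (by linarith : (0 : ℝ) ≤ x + 1), mul_nonneg ht ht]
  · rcases le_or_gt (x + 1) (-t / 4) with h | h
    · nlinarith [mul_nonneg (by linarith : (0 : ℝ) ≤ -t) (by linarith : (0 : ℝ) ≤ -t / 4 - (x + 1))]
    · have ha : (x - 1 - 4 * t) * (x + 1 + t / 4) ≤ 0 :=
        mul_nonpos_of_nonpos_of_nonneg (by linarith) (by linarith)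
      have hu : -t ≤ 8 / 17 := by linarith
      have hb : 0 ≤ (-t) * (17 / 4 + 15 / 4 * x - 2 * (-t)) :=
        mul_nonneg (by linarith) (by nlinarith)
      nlinarith

lemma sub_mem (f : EuclideanSpace ℝ (Fin 2)) (hf : f ∈ consistentSet P₀ Λ₀ 2 (√5 / 2) y₀) :
    ‖f - z₀‖ ≤ 1 := by
  rw [mem_iff] at hf
  have := key (f 0 - 1) (f 1) (by nlinarith [hf.1]) (by nlinarith [hf.2])
  have h : ‖f - z₀‖ ^ 2 ≤ 1 ^ 2 := by
    rw [EuclideanSpace.norm_sq_eq]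
    simp [z₀, Fin.sum_univ_two]
    linarith
  exact (pow_le_pow_iff_left₀ (norm_nonneg _) (by norm_num) (by norm_num)).mp h

lemma p_mem : (!₂[0, 0] : EuclideanSpace ℝ (Fin 2)) ∈ consistentSet P₀ Λ₀ 2 (√5 / 2) y₀ := by
  rw [mem_iff]; norm_num

lemma q_mem : (!₂[2, 0] : EuclideanSpace ℝ (Fin 2)) ∈ consistentSet P₀ Λ₀ 2 (√5 / 2) y₀ := by
  rw [mem_iff]; norm_num

lemma two_points (w : EuclideanSpace ℝ (Fin 2)) :
    ‖(!₂[0, 0] : EuclideanSpace ℝ (Fin 2)) - w‖ ^ 2 + ‖(!₂[2, 0] : EuclideanSpace ℝ (Fin 2)) - w‖ ^ 2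
      = 2 * ‖z₀ - w‖ ^ 2 + 2 := by
  simp only [EuclideanSpace.norm_sq_eq]
  simp [z₀, Fin.sum_univ_two]
  ring

lemma sup_z : (⨆ f ∈ consistentSet P₀ Λ₀ 2 (√5 / 2) y₀, edist f z₀) ≤ 1 := by
  refine iSup₂_le fun f hf => ?_
  rw [edist_dist, dist_eq_norm]
  exact ENNReal.ofReal_le_one.mpr (sub_mem f hf)

lemma center_z : IsChebyshevCenter (consistentSet P₀ Λ₀ 2 (√5 / 2) y₀) z₀ := by
  intro w
  refine sup_z.trans ?_
  have h2 := two_points w
  have hor : 1 ≤ ‖(!₂[0, 0] : EuclideanSpace ℝ (Fin 2)) - w‖ ∨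
      1 ≤ ‖(!₂[2, 0] : EuclideanSpace ℝ (Fin 2)) - w‖ := by
    by_contra h
    push Not at h
    have a1 := norm_nonneg ((!₂[0, 0] : EuclideanSpace ℝ (Fin 2)) - w)
    have a2 := norm_nonneg ((!₂[2, 0] : EuclideanSpace ℝ (Fin 2)) - w)
    nlinarith [sq_nonneg ‖z₀ - w‖]
  rcases hor with h | h
  · refine le_trans ?_ (le_iSup₂ (f := fun f (_ : f ∈ _) => edist f w) _ p_mem)
    rw [edist_dist, dist_eq_norm]
    exact ENNReal.one_le_ofReal.mpr h
  · refine le_trans ?_ (le_iSup₂ (f := fun f (_ : f ∈ _) => edist f w) _ q_mem)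
    rw [edist_dist, dist_eq_norm]
    exact ENNReal.one_le_ofReal.mpr h

lemma center_unique (w : EuclideanSpace ℝ (Fin 2))
    (hw : IsChebyshevCenter (consistentSet P₀ Λ₀ 2 (√5 / 2) y₀) w) : w = z₀ := by
  have hle := (hw z₀).trans sup_z
  have h1 := (le_iSup₂ (f := fun f (_ : f ∈ _) => edist f w) _ p_mem).trans hle
  have h2 := (le_iSup₂ (f := fun f (_ : f ∈ _) => edist f w) _ q_mem).trans hle
  rw [edist_dist, dist_eq_norm, ENNReal.ofReal_le_one] at h1 h2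
  have h3 := two_points w
  have a1 := norm_nonneg ((!₂[0, 0] : EuclideanSpace ℝ (Fin 2)) - w)
  have a2 := norm_nonneg ((!₂[2, 0] : EuclideanSpace ℝ (Fin 2)) - w)
  have h4 : ‖z₀ - w‖ ^ 2 ≤ 0 := by nlinarith
  have h5 : ‖z₀ - w‖ = 0 := by
    have := sq_nonneg ‖z₀ - w‖
    exact pow_eq_zero_iff (two_ne_zero) |>.mp (le_antisymm h4 this)
  rw [norm_eq_zero, sub_eq_zero] at h5
  exact h5.symm

lemma not_min (τ : ℝ) (h0 : 0 ≤ τ) (h1 : τ ≤ 1) : ∃ f, regFun P₀ Λ₀ y₀ τ f < regFun P₀ Λ₀ y₀ τ z₀ := by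
  unfold regFun
  rcases h1.lt_or_eq with h | h
  · refine ⟨!₂[τ, 0], ?_⟩
    rw [normP, normP, normΛ, normΛ]
    simp [z₀]
    nlinarith [sq_nonneg (1 - τ), mul_pos (sub_pos.mpr h) (sub_pos.mpr h)]
  · refine ⟨!₂[1, -2 / 5], ?_⟩
    rw [normP, normP, normΛ, normΛ]
    subst h
    norm_num [z₀]

/-- **MP_ef9ba3_an is disproved.** There are a real finite-dimensional Hilbert space (the plane),
linear maps `P`, `Λ` with `ker P ∩ ker Λ = 0`, numbers `ε, η > 0` and a data vector `y` such that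
the consistent set is nonempty, its Chebyshev center `z` exists and is unique, and `z` minimises
`F_τ` over the whole space for no `τ ∈ [0, 1]`. -/
theorem result :
    ∃ (P : EuclideanSpace ℝ (Fin 2) →ₗ[ℝ] EuclideanSpace ℝ (Fin 2))
      (Λ : EuclideanSpace ℝ (Fin 2) →ₗ[ℝ] EuclideanSpace ℝ (Fin 2))
      (ε η : ℝ) (y z : EuclideanSpace ℝ (Fin 2)),
      0 < ε ∧ 0 < η ∧ LinearMap.ker P ⊓ LinearMap.ker Λ = ⊥ ∧
      (consistentSet P Λ ε η y).Nonempty ∧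
      IsChebyshevCenter (consistentSet P Λ ε η y) z ∧
      (∀ w, IsChebyshevCenter (consistentSet P Λ ε η y) w → w = z) ∧
      ∀ τ ∈ Set.Icc (0 : ℝ) 1, ¬ ∀ f, regFun P Λ y τ z ≤ regFun P Λ y τ f := by
  refine ⟨P₀, Λ₀, 2, √5 / 2, y₀, z₀, by norm_num, by positivity, ?_, ⟨_, p_mem⟩, center_z,
    center_unique, ?_⟩
  · rw [eq_bot_iff]
    rintro f ⟨-, hf⟩
    rw [SetLike.mem_coe, LinearMap.mem_ker] at hf
    have e0 := congrArg (fun g : EuclideanSpace ℝ (Fin 2) => g 0) hf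
    have e1 := congrArg (fun g : EuclideanSpace ℝ (Fin 2) => g 1) hf
    simp [Λ₀] at e0 e1
    rw [Submodule.mem_bot]
    ext i; fin_cases i
    · simp [e1] at e0 ⊢; exact e0
    · simpa using e1
  · rintro τ ⟨h0, h1⟩ hall
    obtain ⟨f, hf⟩ := not_min τ h0 h1
    exact absurd (hall f) (not_le.mpr hf)

end Pool.Agent.Results.MP_ef9ba3_an.RealCounterexample
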